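import Pool.Agent.H1.OVN.Rec

/-!
# The sheet on a smaller and on a larger cell

Rows RDN, RUP of the list of helper65 (own-visibility of polynomial graphs).
-/

set_option autoImplicit false

namespace Pool.Agent.H1.OVN

open Finset Real MvPolynomial Pool.OVN
open Pool.Agent.H49.Ent Pool.Agent.H32.Dense Pool.STK

/-! ### Finitely many integers known up to an error -/

theorem near {Ω T ι : Type*} [Fintype Ω] [Fintype ι] {p : Ω → ℝ} (hp : ∀ ω, 0 ≤ p ω)
    (h1 : ∑ ω, p ω = 1) (V : Ω → ι → ℤ) (W : Ω → T) (M : ℝ)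
    (hV : ∀ ω ω', 0 < p ω → 0 < p ω' → W ω = W ω' → ∀ k, |((V ω k : ℝ) - V ω' k)| ≤ M) :
    CH p V W ≤ Fintype.card ι * Real.log (2 * M + 1) := by
  set e := Fintype.equivFin ι with he
  have h := CH_le_vec hp h1 (fun ω (k : Fin (Fintype.card ι)) => V ω (e.symm k)) W (fun _ => M)
    (fun ω ω' a b c k => by
      push_cast
      exact hV ω ω' a b c (e.symm k))
  rw [Ex_const h1] at h
  refine le_trans (CH_mono_left hp ?_) h
  intro ω ω' _ _ hh
  have h2 := (Prod.ext_iff.mp hh).1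
  funext i
  have := congrFun h2 (e i)
  simpa using this

/-- Roundings of numbers at distance at most `D`. -/
theorem floor_near {x y D : ℝ} (h : |x - y| ≤ D) : |((⌊x⌋ : ℝ) - ⌊y⌋)| ≤ D + 1 := by
  rw [abs_le] at h ⊢
  have h1 := Int.floor_le x
  have h2 := Int.lt_floor_add_one x
  have h3 := Int.floor_le y
  have h4 := Int.lt_floor_add_one y
  constructor <;> linarith

theorem near_floor {x y : ℝ} (h : ⌊x⌋ = ⌊y⌋) : |x - y| ≤ 1 := by
  have h1 := Int.floor_le x
  have h2 := Int.lt_floor_add_one x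
  have h3 := Int.floor_le y
  have h4 := Int.lt_floor_add_one y
  rw [h] at h1 h2
  rw [abs_le]
  constructor <;> linarith

variable {n : ℕ}

/-! ### Degrees and coefficients of `pul` -/

theorem degree_bind {A : MvPolynomial (Fin n) ℝ} {K : ℕ} (hA : A.totalDegree ≤ K) (r : ℝ)
    (h : Fin n → ℝ) (s : Fin n →₀ ℕ) (hs : ∃ j, K < s j) :
    coeff s (bind₁ (fun j => C (h j) + C r * X j) A) = 0 := by
  rw [rec_thm]
  refine Finset.sum_eq_zero fun t ht => ?_
  obtain ⟨j, hj⟩ := hs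
  have h1 : t j ≤ K := le_trans (Finset.single_le_sum (f := fun j => t j)
    (fun i _ => Nat.zero_le _) (Finset.mem_univ j)) (sum_le hA ht)
  have h2 : ∏ j, ((t j).choose (s j) : ℝ) * r ^ (s j) * h j ^ (t j - s j) = 0 := by
    refine Finset.prod_eq_zero (Finset.mem_univ j) ?_
    rw [Nat.choose_eq_zero_of_lt (lt_of_le_of_lt h1 hj)]
    simp
  rw [h2, mul_zero]

theorem totalDegree_bind {A : MvPolynomial (Fin n) ℝ} {K : ℕ} (hA : A.totalDegree ≤ K) (r : ℝ)
    (h : Fin n → ℝ) : (bind₁ (fun j => C (h j) + C r * X j) A).totalDegree ≤ K := by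
  unfold totalDegree
  refine Finset.sup_le fun s hs => ?_
  by_contra hc
  push Not at hc
  rw [Finsupp.sum_fintype _ _ (fun _ => rfl)] at hc
  rw [mem_support_iff] at hs
  apply hs
  rw [rec_thm]
  refine Finset.sum_eq_zero fun t ht => ?_
  have h1 := sum_le hA ht
  have h2 : ∃ j, t j < s j := by
    by_contra hn
    push Not at hn
    have := Finset.sum_le_sum (s := Finset.univ) fun j _ => hn j
    omega
  obtain ⟨j, hj⟩ := h2
  have h3 : ∏ j, ((t j).choose (s j) : ℝ) * r ^ (s j) * h j ^ (t j - s j) = 0 := by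
    refine Finset.prod_eq_zero (Finset.mem_univ j) ?_
    rw [Nat.choose_eq_zero_of_lt hj]
    simp
  rw [h3, mul_zero]

theorem bind_bind (G : MvPolynomial (Fin n) ℝ) (u v r : ℝ) (a b c : Fin n → ℝ)
    (h1 : ∀ j, a j + u * b j = c j) (h2 : u * r = v) :
    bind₁ (fun j => C (b j) + C r * X j) (bind₁ (fun j => C (a j) + C u * X j) G) =
      bind₁ (fun j => C (c j) + C v * X j) G := by
  rw [bind₁_bind₁]
  congr 2
  funext j
  simp only [map_add, map_mul, bind₁_X_right, algHom_C, algebraMap_eq]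
  rw [← h1 j, ← h2]
  simp only [map_add, map_mul]
  ring

/-- The sheet on a smaller cell. -/
theorem pul_dn (G : MvPolynomial (Fin n) ℝ) (a b : ℕ) (c c' : Fin n → ℤ) :
    pul (a + b) c' G = bind₁ (fun j => C ((c' j : ℝ) / 2 ^ b - c j) + C (1 / 2 ^ b) * X j)
      (pul a c G) := by
  unfold pul
  rw [bind_bind G (1 / 2 ^ a) (1 / 2 ^ (a + b)) (1 / 2 ^ b) (fun j => (c j : ℝ) / 2 ^ a)
    (fun j => (c' j : ℝ) / 2 ^ b - c j) (fun j => (c' j : ℝ) / 2 ^ (a + b))]
  · intro j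
    rw [pow_add]
    field_simp
    ring
  · rw [pow_add]
    field_simp

/-- The sheet on a larger cell. -/
theorem pul_up (G : MvPolynomial (Fin n) ℝ) (a b : ℕ) (c c' : Fin n → ℤ) :
    pul a c G = bind₁ (fun j => C (2 ^ b * (c j : ℝ) - c' j) + C (2 ^ b) * X j)
      (pul (a + b) c' G) := by
  unfold pul
  rw [bind_bind G (1 / 2 ^ (a + b)) (1 / 2 ^ a) (2 ^ b) (fun j => (c' j : ℝ) / 2 ^ (a + b))
    (fun j => 2 ^ b * (c j : ℝ) - c' j) (fun j => (c j : ℝ) / 2 ^ a)]
  · intro j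
    rw [pow_add]
    field_simp
    ring
  · rw [pow_add]
    field_simp

theorem pul_deg {G : MvPolynomial (Fin n) ℝ} {K : ℕ} (hG : G.totalDegree ≤ K) (a : ℕ)
    (c : Fin n → ℤ) : (pul a c G).totalDegree ≤ K := totalDegree_bind hG _ _

theorem pul_coeff {G : MvPolynomial (Fin n) ℝ} {K : ℕ} (hG : G.totalDegree ≤ K) (a : ℕ)
    (c : Fin n → ℤ) (s : Fin n →₀ ℕ) (hs : ∃ j, K < s j) : coeff s (pul a c G) = 0 :=
  degree_bind hG _ _ s hs

theorem hz_zero {A : MvPolynomial (Fin n) ℝ} {s : Fin n →₀ ℕ} (h : coeff s A = 0) (P : ℕ) :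
    hz P A s = 0 := by
  unfold hz
  rw [h]
  simp

theorem hz_near {A B : MvPolynomial (Fin n) ℝ} {s : Fin n →₀ ℕ} {P : ℕ}
    (h : hz P A s = hz P B s) : |coeff s (A - B)| ≤ 1 / 2 ^ P := by
  have h1 := near_floor h
  rw [coeff_sub]
  rw [← mul_sub, abs_mul, abs_of_pos (by positivity : (0 : ℝ) < 2 ^ P)] at h1
  rw [le_div_iff₀ (by positivity)]
  linarith

theorem near_hz {A B : MvPolynomial (Fin n) ℝ} {s : Fin n →₀ ℕ} {P : ℕ} {M : ℝ}
    (h : |coeff s (A - B)| ≤ M / 2 ^ P) : |((hz P A s : ℝ) - hz P B s)| ≤ M + 1 := by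
  unfold hz
  refine floor_near ?_
  rw [coeff_sub] at h
  rw [← mul_sub, abs_mul, abs_of_pos (by positivity : (0 : ℝ) < 2 ^ P)]
  rw [le_div_iff₀ (by positivity)] at h
  linarith

/-- The cell of a larger size is a function of the cell. -/
theorem fl_up (a b : ℕ) (y : Fin n → ℝ) (j : Fin n) : fl a y j = fl (a + b) y j / 2 ^ b := by
  have h : fl (a + b) y j = ⌊(2 ^ b : ℝ) * (2 ^ a * y j)⌋ := by
    simp only [fl, rd, pow_add]
    congr 1
    ring
  have h2 : fl a y j = ⌊(2 : ℝ) ^ a * y j⌋ := rfl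
  rw [h, h2]
  have h3 : (2 : ℝ) ^ a * y j = ((2 : ℝ) ^ b * (2 ^ a * y j)) / ((2 ^ b : ℕ) : ℝ) := by
    push_cast
    field_simp
  conv_lhs => rw [h3]
  rw [Int.floor_div_natCast]
  push_cast
  rfl

theorem fl_off (a b : ℕ) (y : Fin n → ℝ) (j : Fin n) :
    (fl a y j : ℝ) * 2 ^ b ≤ fl (a + b) y j ∧ (fl (a + b) y j : ℝ) ≤ (fl a y j + 1) * 2 ^ b := by
  have h := fl_up a b y j
  have h1 := Int.mul_ediv_add_emod (fl (a + b) y j) (2 ^ b)
  have h2 := Int.emod_nonneg (fl (a + b) y j) (by positivity : (2 : ℤ) ^ b ≠ 0)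
  have h3 := Int.emod_lt_of_pos (fl (a + b) y j) (by positivity : (0 : ℤ) < 2 ^ b)
  rw [← h] at h1
  have h4 : fl a y j * 2 ^ b ≤ fl (a + b) y j := by nlinarith
  have h5 : fl (a + b) y j ≤ (fl a y j + 1) * 2 ^ b := by nlinarith
  constructor
  · exact_mod_cast h4
  · exact_mod_cast h5

/-! ### RDN -/

/-- The box of monomials. -/
abbrev Bx (n K : ℕ) : Type := Fin n → Fin (K + 1)

/-- The exponent. -/
noncomputable def ex {K : ℕ} (s : Bx n K) : Fin n →₀ ℕ :=
  Finsupp.equivFunOnFinite.symm fun j => (s j : ℕ)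

theorem ex_surj {K : ℕ} (s : Fin n →₀ ℕ) (hs : ¬ ∃ j, K < s j) : ∃ t : Bx n K, ex t = s := by
  push Not at hs
  refine ⟨fun j => ⟨s j, Nat.lt_succ_of_le (hs j)⟩, ?_⟩
  ext j
  simp [ex]

theorem ger_hz {d : SDat n} {K : ℕ} (hdeg : ∀ l, (d.G l).totalDegree ≤ K) (a P : ℕ) (ω : d.Om)
    (s : Fin n →₀ ℕ) (hs : ∃ j, K < s j) : hz P (d.ger a ω) s = 0 :=
  hz_zero (pul_coeff (hdeg _) _ _ s hs) P

open Classical in
/-- **RDN.** -/
theorem rdn_thm : RDNStmt := by
  intro n K
  obtain ⟨M, hM, hMA⟩ := rca_thm n K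
  refine ⟨Fintype.card (Bx n K ⊕ Bx n K) * Real.log (2 * (M + 1) + 1), ?_, ?_⟩
  · have : 0 ≤ Real.log (2 * (M + 1) + 1) := Real.log_nonneg (by linarith)
    positivity
  intro d a P b hlaw hdeg
  set V : d.Om → Bx n K ⊕ Bx n K → ℤ := fun ω => Sum.elim
    (fun s => hz P (d.ger (a + b) ω) (ex s)) (fun s => d.shp (a + b) (P + b) ω (ex s)) with hV
  have hnear := near hlaw.nonneg hlaw.sum_one V
    (fun ω => (d.ctx a P ω, d.cel (a + b) ω)) (M + 1) ?_
  · refine le_trans (CH_mono_left hlaw.nonneg ?_) hnear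
    intro ω ω' _ _ hh
    simp only [Prod.mk.injEq, SDat.ctx] at hh
    obtain ⟨hv, ⟨hW, hc, _⟩, hc'⟩ := hh
    have key : ∀ s, hz P (d.ger (a + b) ω) s = hz P (d.ger (a + b) ω') s := by
      intro s
      by_cases hs : ∃ j, K < s j
      · rw [ger_hz hdeg _ _ _ s hs, ger_hz hdeg _ _ _ s hs]
      · obtain ⟨t, rfl⟩ := ex_surj s hs
        exact congrFun hv (Sum.inl t)
    have key2 : ∀ s, d.shp (a + b) (P + b) ω s = d.shp (a + b) (P + b) ω' s := by
      intro s
      by_cases hs : ∃ j, K < s j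
      · unfold SDat.shp
        rw [ger_hz hdeg _ _ _ s hs, ger_hz hdeg _ _ _ s hs]
      · obtain ⟨t, rfl⟩ := ex_surj s hs
        exact congrFun hv (Sum.inr t)
    simp only [SDat.ctx, Prod.mk.injEq]
    exact ⟨⟨hW, hc', funext key⟩, funext key2⟩
  · intro ω ω' _ _ hh k
    simp only [Prod.mk.injEq, SDat.ctx] at hh
    obtain ⟨⟨hW, hc, hg⟩, hc'⟩ := hh
    have e1 : d.ger (a + b) ω = bind₁ (fun j => C ((d.cel (a + b) ω j : ℝ) / 2 ^ b - d.cel a ω j) +
        C (1 / 2 ^ b) * X j) (d.ger a ω) := pul_dn _ _ _ _ _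
    have e2 : d.ger (a + b) ω' = bind₁ (fun j => C ((d.cel (a + b) ω j : ℝ) / 2 ^ b -
        d.cel a ω j) + C (1 / 2 ^ b) * X j) (d.ger a ω') := by
      rw [hc, hc']
      exact pul_dn _ _ _ _ _
    have hA : (d.ger a ω - d.ger a ω').totalDegree ≤ K :=
      le_trans (totalDegree_sub _ _) (max_le (pul_deg (hdeg _) _ _) (pul_deg (hdeg _) _ _))
    have hb := hMA (d.ger a ω - d.ger a ω') (1 / 2 ^ P) (1 / 2 ^ b)
      (fun j => (d.cel (a + b) ω j : ℝ) / 2 ^ b - d.cel a ω j) hA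
      (fun t => hz_near (congrFun hg t)) (by positivity)
      (by
        rw [div_le_one (by positivity)]
        exact one_le_pow₀ (by norm_num))
      (by
        intro j
        have h := fl_off a b (d.y ω) j
        have hp : (0 : ℝ) < 2 ^ b := by positivity
        have h1 : (d.cel a ω j : ℝ) ≤ (d.cel (a + b) ω j : ℝ) / 2 ^ b := by
          rw [le_div_iff₀ hp]
          exact h.1
        have h2 : (d.cel (a + b) ω j : ℝ) / 2 ^ b ≤ d.cel a ω j + 1 := by
          rw [div_le_iff₀ hp]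
          exact h.2
        rw [abs_le]
        constructor <;> linarith)
    rw [map_sub, ← e1, ← e2] at hb
    have r0 : (0 : ℝ) ≤ 1 / 2 ^ b := by positivity
    have r1 : (1 : ℝ) / 2 ^ b ≤ 1 := by
      rw [div_le_one (by positivity)]
      exact one_le_pow₀ (by norm_num)
    rcases k with s | s
    · refine near_hz ((hb (ex s)).trans ?_)
      have h3 : ((1 : ℝ) / 2 ^ b) ^ ((ex s).sum fun _ k => k) ≤ 1 := pow_le_one₀ r0 r1
      have h4 : (0 : ℝ) ≤ M * (1 / 2 ^ P) := by positivity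
      calc M * (1 / 2 ^ P) * (1 / 2 ^ b) ^ ((ex s).sum fun _ k => k) ≤ M * (1 / 2 ^ P) * 1 :=
            mul_le_mul_of_nonneg_left h3 h4
        _ = M / 2 ^ P := by ring
    · simp only [hV, Sum.elim_inr, SDat.shp]
      by_cases hs : ex s = 0
      · rw [if_pos hs, if_pos hs]
        simp only [Int.cast_zero, sub_self, abs_zero]
        linarith
      · rw [if_neg hs, if_neg hs]
        refine near_hz ((hb (ex s)).trans ?_)
        have h3 : ((1 : ℝ) / 2 ^ b) ^ ((ex s).sum fun _ k => k) ≤ (1 / 2 ^ b) ^ 1 := by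
          refine pow_le_pow_of_le_one r0 r1 ?_
          by_contra hc0
          apply hs
          push Not at hc0
          rw [Finsupp.sum_fintype _ _ (fun _ => rfl)] at hc0
          ext j
          have := Finset.single_le_sum (f := fun j => ex s j) (fun i _ => Nat.zero_le _)
            (Finset.mem_univ j)
          simp only [Finsupp.coe_zero, Pi.zero_apply]
          omega
        have h4 : (0 : ℝ) ≤ M * (1 / 2 ^ P) := by positivity
        calc M * (1 / 2 ^ P) * (1 / 2 ^ b) ^ ((ex s).sum fun _ k => k)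
            ≤ M * (1 / 2 ^ P) * (1 / 2 ^ b) ^ 1 := mul_le_mul_of_nonneg_left h3 h4
          _ = M / 2 ^ (P + b) := by
            rw [pow_add]
            field_simp

/-! ### RUP -/

/-- **RUP.** -/
theorem rup_thm : RUPStmt := by
  intro n K
  obtain ⟨M, hM, hMA⟩ := rcb_thm n K
  refine ⟨Fintype.card (Bx n K) * Real.log (2 * (M + 1) + 1), ?_, ?_⟩
  · have : 0 ≤ Real.log (2 * (M + 1) + 1) := Real.log_nonneg (by linarith)
    positivity
  intro d a P b s hlaw hdeg hs
  set V : d.Om → Bx n K → ℤ := fun ω t => hz P (d.ger a ω) (ex t) with hV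
  have hcel : ∀ ω ω', d.cel (a + s) ω = d.cel (a + s) ω' → d.cel a ω = d.cel a ω' := by
    intro ω ω' h
    funext j
    have h1 := fl_up a s (d.y ω) j
    have h2 := fl_up a s (d.y ω') j
    have h3 : fl (a + s) (d.y ω) j = fl (a + s) (d.y ω') j := congrFun h j
    show fl a (d.y ω) j = fl a (d.y ω') j
    rw [h1, h2, h3]
  have hnear := near hlaw.nonneg hlaw.sum_one V
    (fun ω => (d.ctx (a + s) P ω, d.shp (a + s) (P + b) ω)) (M + 1) ?_
  · refine le_trans (CH_mono_left hlaw.nonneg ?_) hnear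
    intro ω ω' _ _ hh
    simp only [Prod.mk.injEq, SDat.ctx] at hh
    obtain ⟨hv, ⟨hW, hc, _⟩, _⟩ := hh
    have key : ∀ s, hz P (d.ger a ω) s = hz P (d.ger a ω') s := by
      intro s
      by_cases hs : ∃ j, K < s j
      · rw [ger_hz hdeg _ _ _ s hs, ger_hz hdeg _ _ _ s hs]
      · obtain ⟨t, rfl⟩ := ex_surj s hs
        exact congrFun hv t
    simp only [SDat.ctx, Prod.mk.injEq]
    exact ⟨hW, hcel ω ω' hc, funext key⟩
  · intro ω ω' _ _ hh k
    simp only [Prod.mk.injEq, SDat.ctx] at hh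
    obtain ⟨⟨hW, hc, hg⟩, hsh⟩ := hh
    have hca := hcel ω ω' hc
    have e1 : d.ger a ω = bind₁ (fun j => C (2 ^ s * (d.cel a ω j : ℝ) - d.cel (a + s) ω j) +
        C (2 ^ s) * X j) (d.ger (a + s) ω) := pul_up _ _ _ _ _
    have e2 : d.ger a ω' = bind₁ (fun j => C (2 ^ s * (d.cel a ω j : ℝ) - d.cel (a + s) ω j) +
        C (2 ^ s) * X j) (d.ger (a + s) ω') := by
      rw [hc, hca]
      exact pul_up _ _ _ _ _
    have hA : (d.ger (a + s) ω - d.ger (a + s) ω').totalDegree ≤ K :=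
      le_trans (totalDegree_sub _ _) (max_le (pul_deg (hdeg _) _ _) (pul_deg (hdeg _) _ _))
    have hb := hMA (d.ger (a + s) ω - d.ger (a + s) ω') (1 / 2 ^ P) (1 / 2 ^ (P + b)) (2 ^ s)
      (fun j => 2 ^ s * (d.cel a ω j : ℝ) - d.cel (a + s) ω j) hA
      (hz_near (congrFun hg 0))
      (by
        intro t ht
        have h := congrFun hsh t
        simp only [SDat.shp, if_neg ht] at h
        exact hz_near h)
      (one_le_pow₀ (by norm_num))
      (by
        rw [← pow_mul, div_mul_eq_mul_div, one_mul, div_le_div_iff₀ (by positivity) (by positivity),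
          one_mul, ← pow_add]
        refine pow_le_pow_right₀ (by norm_num) ?_
        have : s * K = K * s := mul_comm _ _
        omega)
      (by
        intro j
        have h := fl_off a s (d.y ω) j
        have h1 : (d.cel a ω j : ℝ) * 2 ^ s ≤ d.cel (a + s) ω j := h.1
        have h2 : (d.cel (a + s) ω j : ℝ) ≤ (d.cel a ω j + 1) * 2 ^ s := h.2
        have hp : (0 : ℝ) < 2 ^ s := by positivity
        rw [abs_le]
        constructor <;> nlinarith)
    rw [map_sub, ← e1, ← e2] at hb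
    refine near_hz ((hb (ex k)).trans (le_of_eq ?_))
    ring

end Pool.Agent.H1.OVN
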