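import Pool.Agent.H65.OVN.Stmts

/-!
# Coefficients after the substitution `z ↦ h + r z`

Rows REC, RCA, RCB of the list of helper65 (own-visibility of polynomial graphs).
-/

set_option autoImplicit false

namespace Pool.Agent.H1.OVN

open Finset MvPolynomial Pool.OVN

variable {n : ℕ}

theorem prod_monomial (S : Finset (Fin n)) (f : Fin n → Fin n →₀ ℕ) (a : Fin n → ℝ) :
    ∏ j ∈ S, (monomial (f j) (a j) : MvPolynomial (Fin n) ℝ) =
      monomial (∑ j ∈ S, f j) (∏ j ∈ S, a j) := by
  induction S using Finset.induction_on with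
  | empty => simp
  | insert i S hi ih =>
    rw [Finset.prod_insert hi, Finset.sum_insert hi, Finset.prod_insert hi, ih, monomial_mul]

/-- One factor. -/
theorem factor (h r : ℝ) (j : Fin n) (t : ℕ) :
    (C h + C r * X j : MvPolynomial (Fin n) ℝ) ^ t =
      ∑ m ∈ range (t + 1), monomial (Finsupp.single j m) ((t.choose m : ℝ) * r ^ m * h ^ (t - m)) := by
  rw [add_comm, add_pow]
  refine Finset.sum_congr rfl fun m _ => ?_
  rw [mul_pow, ← C_pow, ← C_pow, X_pow_eq_monomial, C_mul_monomial]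
  have e : ((t.choose m : ℕ) : MvPolynomial (Fin n) ℝ) = C (t.choose m : ℝ) := by simp
  rw [e, mul_comm (monomial (Finsupp.single j m) (r ^ m * 1)) (C (h ^ (t - m))), C_mul_monomial,
    mul_comm (monomial (Finsupp.single j m) _) (C (t.choose m : ℝ)), C_mul_monomial]
  congr 1
  ring

/-- The coefficients of a product of polynomials in one variable each. -/
theorem coeff_prod_sum (T : Fin n → ℕ) (g : Fin n → ℕ → ℝ) (s : Fin n →₀ ℕ) :
    coeff s (∏ j, ∑ m ∈ range (T j + 1),
      (monomial (Finsupp.single j m) (g j m) : MvPolynomial (Fin n) ℝ)) =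
      if ∀ j, s j ≤ T j then ∏ j, g j (s j) else 0 := by
  classical
  rw [Finset.prod_univ_sum, coeff_sum]
  have e : ∀ p ∈ Fintype.piFinset (fun j => range (T j + 1)),
      coeff s (∏ j, (monomial (Finsupp.single j (p j)) (g j (p j)) : MvPolynomial (Fin n) ℝ)) =
        if p = (s : Fin n → ℕ) then ∏ j, g j (s j) else 0 := by
    intro p _
    rw [prod_monomial, coeff_monomial]
    have e1 : (∑ j, Finsupp.single j (p j)) = s ↔ p = (s : Fin n → ℕ) := by
      constructor
      · intro h
        rw [← h]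
        funext i
        rw [Finsupp.finsetSum_apply]
        simp [Finsupp.single_apply]
      · intro h
        ext i
        rw [Finsupp.finsetSum_apply, h]
        simp [Finsupp.single_apply]
    by_cases h : p = (s : Fin n → ℕ)
    · rw [if_pos (e1.2 h), if_pos h, h]
    · rw [if_neg fun h' => h (e1.1 h'), if_neg h]
  rw [Finset.sum_congr rfl e, Finset.sum_ite_eq']
  by_cases h : ∀ j, s j ≤ T j
  · rw [if_pos h, if_pos]
    rw [Fintype.mem_piFinset]
    intro j
    rw [Finset.mem_range]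
    exact Nat.lt_succ_of_le (h j)
  · rw [if_neg h, if_neg]
    intro h'
    apply h
    intro j
    have := (Fintype.mem_piFinset.1 h') j
    rw [Finset.mem_range] at this
    exact Nat.lt_succ_iff.1 this

/-- **REC.** -/
theorem rec_thm : RECStmt := by
  intro n A r h s
  have e : bind₁ (fun j => C (h j) + C r * X j) A =
      ∑ t ∈ A.support, C (coeff t A) * ∏ j, (C (h j) + C r * X j) ^ (t j) := by
    have h1 := MvPolynomial.eval₂_eq' (algebraMap ℝ (MvPolynomial (Fin n) ℝ))
      (fun j => C (h j) + C r * X j) A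
    rw [bind₁, aeval_def, h1]
    rfl
  rw [e, coeff_sum]
  refine Finset.sum_congr rfl fun t _ => ?_
  rw [coeff_C_mul]
  congr 1
  have e2 : ∏ j, (C (h j) + C r * X j : MvPolynomial (Fin n) ℝ) ^ (t j) =
      ∏ j, ∑ m ∈ range (t j + 1), (monomial (Finsupp.single j m)
        (((t j).choose m : ℝ) * r ^ m * h j ^ (t j - m)) : MvPolynomial (Fin n) ℝ) :=
    Finset.prod_congr rfl fun j _ => factor (h j) r j (t j)
  rw [e2, coeff_prod_sum (fun j => t j) (fun j m => ((t j).choose m : ℝ) * r ^ m * h j ^ (t j - m))]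
  split_ifs with hs
  · rfl
  · push Not at hs
    obtain ⟨j, hj⟩ := hs
    symm
    refine Finset.prod_eq_zero (Finset.mem_univ j) ?_
    rw [Nat.choose_eq_zero_of_lt hj]
    simp

theorem sum_le {K : ℕ} {A : MvPolynomial (Fin n) ℝ} (hA : A.totalDegree ≤ K) {t : Fin n →₀ ℕ}
    (ht : t ∈ A.support) : ∑ j, t j ≤ K := by
  have h := le_totalDegree ht
  rw [Finsupp.sum_fintype _ _ (fun _ => rfl)] at h
  exact le_trans h hA

theorem card_le {K : ℕ} {A : MvPolynomial (Fin n) ℝ} (hA : A.totalDegree ≤ K) :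
    (A.support.card : ℝ) ≤ (K + 1 : ℝ) ^ n := by
  classical
  have h : A.support.card ≤ (Fintype.piFinset (fun _ : Fin n => range (K + 1))).card := by
    refine Finset.card_le_card_of_injOn (fun t => (t : Fin n → ℕ)) ?_ ?_
    · intro t ht
      simp only [Finset.mem_coe, Fintype.mem_piFinset, Finset.mem_range]
      intro j
      have h1 := sum_le hA ht
      have h2 := Finset.single_le_sum (f := fun j => t j) (fun i _ => Nat.zero_le _)
        (Finset.mem_univ j)
      exact Nat.lt_succ_of_le (le_trans h2 h1)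
    · intro t _ t' _ htt
      exact DFunLike.coe_injective htt
  rw [Fintype.card_piFinset] at h
  simp only [Finset.card_range, Finset.prod_const, Finset.card_univ, Fintype.card_fin] at h
  have h' : (A.support.card : ℝ) ≤ (((K + 1) ^ n : ℕ) : ℝ) := by exact_mod_cast h
  push_cast at h'
  exact h'

theorem choose_le {K : ℕ} {t : Fin n →₀ ℕ} (ht : ∑ j, t j ≤ K) (s : Fin n →₀ ℕ) :
    ∏ j, ((t j).choose (s j) : ℝ) ≤ 2 ^ K := by
  have h1 : ∏ j, ((t j).choose (s j) : ℝ) ≤ ∏ j, (2 : ℝ) ^ (t j) := by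
    refine Finset.prod_le_prod (fun j _ => Nat.cast_nonneg _) fun j _ => ?_
    have := Nat.choose_le_two_pow (t j) (s j)
    exact_mod_cast this
  rw [Finset.prod_pow_eq_pow_sum] at h1
  exact le_trans h1 (pow_le_pow_right₀ (by norm_num) ht)

/-- **RCA.** -/
theorem rca_thm : RCAStmt := by
  intro n K
  refine ⟨(K + 1 : ℝ) ^ n * 2 ^ K, ?_, ?_⟩
  · have h1 : (1 : ℝ) ≤ (K + 1 : ℝ) ^ n := one_le_pow₀ (by
      have : (0 : ℝ) ≤ K := Nat.cast_nonneg K
      linarith)
    have h2 : (1 : ℝ) ≤ 2 ^ K := one_le_pow₀ (by norm_num)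
    nlinarith
  · intro A e r h hA hc r0 r1 hh s
    have e0 : 0 ≤ e := le_trans (abs_nonneg _) (hc 0)
    rw [rec_thm, Finsupp.sum_fintype _ _ (fun _ => rfl)]
    refine le_trans (Finset.abs_sum_le_sum_abs _ _) ?_
    have hb : ∀ t ∈ A.support, |coeff t A * ∏ j, ((t j).choose (s j) : ℝ) * r ^ (s j) *
        h j ^ (t j - s j)| ≤ e * (2 ^ K * r ^ (∑ j, s j)) := by
      intro t ht
      rw [abs_mul]
      refine mul_le_mul (hc t) ?_ (abs_nonneg _) e0
      rw [Finset.prod_mul_distrib, Finset.prod_mul_distrib, Finset.prod_pow_eq_pow_sum, abs_mul,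
        abs_mul, abs_of_nonneg (Finset.prod_nonneg fun j _ => Nat.cast_nonneg _),
        abs_of_nonneg (pow_nonneg r0 _)]
      have h1 := choose_le (sum_le hA ht) s
      have h2 : |∏ j, h j ^ (t j - s j)| ≤ 1 := by
        rw [Finset.abs_prod]
        refine Finset.prod_le_one (fun _ _ => abs_nonneg _) fun j _ => ?_
        rw [abs_pow]
        exact pow_le_one₀ (abs_nonneg _) (hh j)
      have h3 : 0 ≤ r ^ (∑ j, s j) := pow_nonneg r0 _
      calc (∏ j, ((t j).choose (s j) : ℝ)) * r ^ (∑ j, s j) * |∏ j, h j ^ (t j - s j)|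
          ≤ (2 ^ K * r ^ (∑ j, s j)) * 1 :=
            mul_le_mul (mul_le_mul_of_nonneg_right h1 h3) h2 (abs_nonneg _)
              (mul_nonneg (by positivity) h3)
        _ = 2 ^ K * r ^ (∑ j, s j) := mul_one _
    refine le_trans (Finset.sum_le_sum hb) ?_
    rw [Finset.sum_const, nsmul_eq_mul]
    have h3 : 0 ≤ r ^ (∑ j, s j) := pow_nonneg r0 _
    calc (A.support.card : ℝ) * (e * (2 ^ K * r ^ (∑ j, s j)))
        ≤ (K + 1 : ℝ) ^ n * (e * (2 ^ K * r ^ (∑ j, s j))) :=
          mul_le_mul_of_nonneg_right (card_le hA) (mul_nonneg e0 (mul_nonneg (by positivity) h3))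
      _ = (K + 1 : ℝ) ^ n * 2 ^ K * e * r ^ (∑ j, s j) := by ring

/-- **RCB.** -/
theorem rcb_thm : RCBStmt := by
  intro n K
  refine ⟨(K + 1 : ℝ) ^ n * 2 ^ K, ?_, ?_⟩
  · have h1 : (1 : ℝ) ≤ (K + 1 : ℝ) ^ n := one_le_pow₀ (by
      have : (0 : ℝ) ≤ K := Nat.cast_nonneg K
      linarith)
    have h2 : (1 : ℝ) ≤ 2 ^ K := one_le_pow₀ (by norm_num)
    nlinarith
  · intro A e₀ e₁ R h hA hc0 hc hR he hh s
    have e0 : 0 ≤ e₀ := le_trans (abs_nonneg _) hc0
    have R0 : (0 : ℝ) ≤ R := le_trans zero_le_one hR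
    have two1 : (1 : ℝ) ≤ 2 ^ K := one_le_pow₀ (by norm_num)
    rw [rec_thm]
    refine le_trans (Finset.abs_sum_le_sum_abs _ _) ?_
    have hb : ∀ t ∈ A.support, |coeff t A * ∏ j, ((t j).choose (s j) : ℝ) * R ^ (s j) *
        h j ^ (t j - s j)| ≤ 2 ^ K * e₀ := by
      intro t ht
      by_cases hst : ∀ j, s j ≤ t j
      · have hprod : |∏ j, ((t j).choose (s j) : ℝ) * R ^ (s j) * h j ^ (t j - s j)| ≤
            2 ^ K * R ^ (∑ j, t j) := by
          rw [Finset.prod_mul_distrib, abs_mul]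
          have h2 : |∏ j, h j ^ (t j - s j)| ≤ R ^ (∑ j, (t j - s j)) := by
            rw [Finset.abs_prod, ← Finset.prod_pow_eq_pow_sum]
            refine Finset.prod_le_prod (fun _ _ => abs_nonneg _) fun j _ => ?_
            rw [abs_pow]
            exact pow_le_pow_left₀ (abs_nonneg _) (hh j) _
          rw [Finset.prod_mul_distrib, Finset.prod_pow_eq_pow_sum, abs_mul,
            abs_of_nonneg (Finset.prod_nonneg fun j _ => Nat.cast_nonneg _),
            abs_of_nonneg (pow_nonneg R0 _)]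
          have h1 := choose_le (sum_le hA ht) s
          have h3 : 0 ≤ R ^ (∑ j, s j) := pow_nonneg R0 _
          calc (∏ j, ((t j).choose (s j) : ℝ)) * R ^ (∑ j, s j) * |∏ j, h j ^ (t j - s j)|
              ≤ (2 ^ K * R ^ (∑ j, s j)) * R ^ (∑ j, (t j - s j)) :=
                mul_le_mul (mul_le_mul_of_nonneg_right h1 h3) h2 (abs_nonneg _)
                  (mul_nonneg (by positivity) h3)
            _ = 2 ^ K * R ^ (∑ j, t j) := by
              rw [mul_assoc, ← pow_add, ← Finset.sum_add_distrib]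
              congr 2
              refine Finset.sum_congr rfl fun j _ => ?_
              exact Nat.add_sub_cancel' (hst j)
        rw [abs_mul]
        by_cases ht0 : t = 0
        · subst ht0
          have hz : ∑ j, (0 : Fin n →₀ ℕ) j = 0 := by simp
          rw [hz, pow_zero, mul_one] at hprod
          calc |coeff 0 A| * |∏ j, (((0 : Fin n →₀ ℕ) j).choose (s j) : ℝ) * R ^ (s j) *
                h j ^ ((0 : Fin n →₀ ℕ) j - s j)| ≤ e₀ * 2 ^ K :=
                mul_le_mul hc0 hprod (abs_nonneg _) e0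
            _ = 2 ^ K * e₀ := mul_comm _ _
        · have hRt : R ^ (∑ j, t j) ≤ R ^ K := pow_le_pow_right₀ hR (sum_le hA ht)
          have e1 : 0 ≤ e₁ := le_trans (abs_nonneg _) (hc t ht0)
          calc |coeff t A| * |∏ j, ((t j).choose (s j) : ℝ) * R ^ (s j) * h j ^ (t j - s j)|
              ≤ e₁ * (2 ^ K * R ^ (∑ j, t j)) := mul_le_mul (hc t ht0) hprod (abs_nonneg _) e1
            _ ≤ e₁ * (2 ^ K * R ^ K) :=
              mul_le_mul_of_nonneg_left (mul_le_mul_of_nonneg_left hRt (by positivity)) e1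
            _ = 2 ^ K * (e₁ * R ^ K) := by ring
            _ ≤ 2 ^ K * e₀ := mul_le_mul_of_nonneg_left he (by positivity)
      · push Not at hst
        obtain ⟨j, hj⟩ := hst
        have hz : ∏ j, ((t j).choose (s j) : ℝ) * R ^ (s j) * h j ^ (t j - s j) = 0 := by
          refine Finset.prod_eq_zero (Finset.mem_univ j) ?_
          rw [Nat.choose_eq_zero_of_lt hj]
          simp
        rw [hz, mul_zero, abs_zero]
        positivity
    refine le_trans (Finset.sum_le_sum hb) ?_
    rw [Finset.sum_const, nsmul_eq_mul]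
    calc (A.support.card : ℝ) * (2 ^ K * e₀) ≤ (K + 1 : ℝ) ^ n * (2 ^ K * e₀) :=
          mul_le_mul_of_nonneg_right (card_le hA) (by positivity)
      _ = (K + 1 : ℝ) ^ n * 2 ^ K * e₀ := by ring

end Pool.Agent.H1.OVN
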